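import Pool.Agent.R290.FL.Main

/-!
For every subgroup of the circle with an element of infinite order, in particular for every
virtually infinite cyclic one, the group of interval exchanges with flips over it is neither
realizable nor stably realizable.
-/

namespace Pool.Agent.Results.MP_ad338c_an.NotStablyRealizable

open Pool.Agent.R291 Pool.Agent.R290.FL

theorem result.{u} (Λ : AddSubgroup S1) (h : ∃ a ∈ Λ, addOrderOf a = 0) :
    ¬ Realizable (IETflip Λ) ∧ ¬ StablyRealizable.{u} (IETflip Λ) := by
  obtain ⟨a, ha, h0⟩ := h
  exact ⟨fun hR => not_stably Λ a ha h0 (Realizable.stably.{u} hR), not_stably Λ a ha h0⟩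

end Pool.Agent.Results.MP_ad338c_an.NotStablyRealizable
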